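import Pool.Agent.Q151.TG.Req
import Pool.Agent.Q66.TG.Hom

set_option autoImplicit false

/-!
# Homotopy equivalences of complexes of free modules, and the homology of finite `G`-sets
-/

namespace Pool.Agent.V8H47.ST

open Matrix Pool.Agent.Q181.TG Pool.Agent.Q151.TG

/-- The complexes of free modules `R^ι → R^κ → R^θ` with matrices `A`, `D` and `R^ι' → R^κ' → R^θ'` with
matrices `B`, `D'` are homotopy equivalent in the middle degree: there are chain maps `S`, `T` in both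
directions, and homotopies `F`, `E` and `F'`, `E'` between their composites and the identity, in the middle
degree. -/
def ChainEq {R : Type} [Ring R] {ι κ θ ι' κ' θ' : Type} [Fintype ι] [Fintype κ] [Fintype θ]
    [Fintype ι'] [Fintype κ'] [Fintype θ'] [DecidableEq κ] [DecidableEq κ']
    (A : Matrix ι κ R) (D : Matrix κ θ R) (B : Matrix ι' κ' R) (D' : Matrix κ' θ' R) : Prop :=
  ∃ (S₂ : Matrix ι ι' R) (S₁ : Matrix κ κ' R) (S₀ : Matrix θ θ' R)
    (T₂ : Matrix ι' ι R) (T₁ : Matrix κ' κ R) (T₀ : Matrix θ' θ R)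
    (F : Matrix κ ι R) (E : Matrix θ κ R) (F' : Matrix κ' ι' R) (E' : Matrix θ' κ' R),
    A * S₁ = S₂ * B ∧ D * S₀ = S₁ * D' ∧ B * T₁ = T₂ * A ∧ D' * T₀ = T₁ * D ∧
    1 - S₁ * T₁ = F * A + D * E ∧ 1 - T₁ * S₁ = F' * B + D' * E'

/-- the middle homology of a complex of free abelian groups -/
abbrev HM {α β γ : Type} [Fintype β] (M : Matrix α β ℤ) (N : Matrix β γ ℤ) : Type :=
  LinearMap.ker N.vecMulLinear ⧸
    (Submodule.span ℤ (Set.range M)).submoduleOf (LinearMap.ker N.vecMulLinear)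

theorem hm_equiv {α β γ α' β' γ' : Type} [Fintype α] [Fintype β] [Fintype γ]
    [Fintype α'] [Fintype β'] [Fintype γ'] [DecidableEq β] [DecidableEq β']
    (M : Matrix α β ℤ) (N : Matrix β γ ℤ) (M' : Matrix α' β' ℤ) (N' : Matrix β' γ' ℤ)
    (h : ChainEq M N M' N') : Nonempty (HM M N ≃+ HM M' N') := by
  obtain ⟨S₂, S₁, S₀, T₂, T₁, T₀, F, E, F', E', h1, h2, h3, h4, h5, h6⟩ := h
  have hf : ∀ v ∈ LinearMap.ker N.vecMulLinear,
      S₁.vecMulLinear v ∈ LinearMap.ker N'.vecMulLinear := by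
    intro v hv
    have hv' : v ᵥ* N = 0 := hv
    change (v ᵥ* S₁) ᵥ* N' = 0
    rw [vecMul_vecMul, ← h2, ← vecMul_vecMul, hv', zero_vecMul]
  have hg : ∀ v ∈ LinearMap.ker N'.vecMulLinear,
      T₁.vecMulLinear v ∈ LinearMap.ker N.vecMulLinear := by
    intro v hv
    have hv' : v ᵥ* N' = 0 := hv
    change (v ᵥ* T₁) ᵥ* N = 0
    rw [vecMul_vecMul, ← h4, ← vecMul_vecMul, hv', zero_vecMul]
  let f := (S₁.vecMulLinear).restrict hf
  let g := (T₁.vecMulLinear).restrict hg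
  have hF : (Submodule.span ℤ (Set.range M)).submoduleOf (LinearMap.ker N.vecMulLinear) ≤
      ((Submodule.span ℤ (Set.range M')).submoduleOf (LinearMap.ker N'.vecMulLinear)).comap f := by
    intro v hv
    have hv' : v.1 ∈ Submodule.span ℤ (Set.range M) := hv
    change (v.1 ᵥ* S₁) ∈ Submodule.span ℤ (Set.range M')
    rw [mem_span_iff] at hv' ⊢
    obtain ⟨w, hw⟩ := hv'
    exact ⟨w ᵥ* S₂, by rw [vecMul_vecMul, ← h1, ← vecMul_vecMul, hw]⟩
  have hG : (Submodule.span ℤ (Set.range M')).submoduleOf (LinearMap.ker N'.vecMulLinear) ≤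
      ((Submodule.span ℤ (Set.range M)).submoduleOf (LinearMap.ker N.vecMulLinear)).comap g := by
    intro v hv
    have hv' : v.1 ∈ Submodule.span ℤ (Set.range M') := hv
    change (v.1 ᵥ* T₁) ∈ Submodule.span ℤ (Set.range M)
    rw [mem_span_iff] at hv' ⊢
    obtain ⟨w, hw⟩ := hv'
    exact ⟨w ᵥ* T₂, by rw [vecMul_vecMul, ← h3, ← vecMul_vecMul, hw]⟩
  have hgf : ∀ v : LinearMap.ker N.vecMulLinear, (g (f v)) - v ∈
      (Submodule.span ℤ (Set.range M)).submoduleOf (LinearMap.ker N.vecMulLinear) := by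
    intro v
    have hv : v.1 ᵥ* N = 0 := v.2
    change (v.1 ᵥ* S₁) ᵥ* T₁ - v.1 ∈ Submodule.span ℤ (Set.range M)
    rw [mem_span_iff]
    refine ⟨-(v.1 ᵥ* F), ?_⟩
    have h7 : S₁ * T₁ = 1 - (F * M + N * E) := by rw [← h5]; abel
    rw [vecMul_vecMul, h7, Matrix.vecMul_sub, Matrix.vecMul_one, Matrix.vecMul_add,
      ← vecMul_vecMul, ← vecMul_vecMul, hv, zero_vecMul, Matrix.neg_vecMul]
    abel
  have hfg : ∀ v : LinearMap.ker N'.vecMulLinear, (f (g v)) - v ∈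
      (Submodule.span ℤ (Set.range M')).submoduleOf (LinearMap.ker N'.vecMulLinear) := by
    intro v
    have hv : v.1 ᵥ* N' = 0 := v.2
    change (v.1 ᵥ* T₁) ᵥ* S₁ - v.1 ∈ Submodule.span ℤ (Set.range M')
    rw [mem_span_iff]
    refine ⟨-(v.1 ᵥ* F'), ?_⟩
    have h7 : T₁ * S₁ = 1 - (F' * M' + N' * E') := by rw [← h6]; abel
    rw [vecMul_vecMul, h7, Matrix.vecMul_sub, Matrix.vecMul_one, Matrix.vecMul_add,
      ← vecMul_vecMul, ← vecMul_vecMul, hv, zero_vecMul, Matrix.neg_vecMul]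
    abel
  refine ⟨(LinearEquiv.ofLinear (Submodule.mapQ _ _ f hF) (Submodule.mapQ _ _ g hG) ?_ ?_
    ).toAddEquiv⟩
  · apply Submodule.linearMap_qext
    ext1 v
    simp only [LinearMap.comp_apply, Submodule.mkQ_apply, Submodule.mapQ_apply, LinearMap.id_apply]
    rw [Submodule.Quotient.eq]
    exact hfg v
  · apply Submodule.linearMap_qext
    ext1 v
    simp only [LinearMap.comp_apply, Submodule.mkQ_apply, Submodule.mapQ_apply, LinearMap.id_apply]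
    rw [Submodule.Quotient.eq]
    exact hgf v

section reg

variable {G : Type} [Group G] (X : Type) [Fintype X] [DecidableEq X] [MulAction G X]

theorem reg_add {ι κ : Type} (A B : Matrix ι κ (MonoidAlgebra ℤ G)) :
    reg X (A + B) = reg X A + reg X B := by
  ext p q
  rw [Matrix.add_apply, reg_eq, reg_eq, reg_eq, Matrix.add_apply, map_add, Matrix.add_apply]

theorem reg_sub {ι κ : Type} (A B : Matrix ι κ (MonoidAlgebra ℤ G)) :
    reg X (A - B) = reg X A - reg X B := by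
  ext p q
  rw [Matrix.sub_apply, reg_eq, reg_eq, reg_eq, Matrix.sub_apply, map_sub, Matrix.sub_apply]

theorem chainEq_reg {ι κ θ ι' κ' θ' : Type} [Fintype ι] [Fintype κ] [Fintype θ]
    [Fintype ι'] [Fintype κ'] [Fintype θ'] [DecidableEq κ] [DecidableEq κ']
    (A : Matrix ι κ (MonoidAlgebra ℤ G)) (D : Matrix κ θ (MonoidAlgebra ℤ G))
    (B : Matrix ι' κ' (MonoidAlgebra ℤ G)) (D' : Matrix κ' θ' (MonoidAlgebra ℤ G))
    (h : ChainEq A D B D') : ChainEq (reg X A) (reg X D) (reg X B) (reg X D') := by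
  obtain ⟨S₂, S₁, S₀, T₂, T₁, T₀, F, E, F', E', h1, h2, h3, h4, h5, h6⟩ := h
  refine ⟨reg X S₂, reg X S₁, reg X S₀, reg X T₂, reg X T₁, reg X T₀, reg X F, reg X E,
    reg X F', reg X E', ?_, ?_, ?_, ?_, ?_, ?_⟩
  · rw [← reg_mul, ← reg_mul, h1]
  · rw [← reg_mul, ← reg_mul, h2]
  · rw [← reg_mul, ← reg_mul, h3]
  · rw [← reg_mul, ← reg_mul, h4]
  · rw [← reg_mul, ← reg_mul, ← reg_mul, ← reg_add, ← h5, reg_sub, reg_one]
  · rw [← reg_mul, ← reg_mul, ← reg_mul, ← reg_add, ← h6, reg_sub, reg_one]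

end reg

section mat

variable {R : Type} [Ring R] {ι κ θ ι' κ' θ' ι'' κ'' θ'' Y : Type} [Fintype ι] [Fintype κ]
  [Fintype θ] [Fintype ι'] [Fintype κ'] [Fintype θ'] [Fintype ι''] [Fintype κ''] [Fintype θ'']
  [Fintype Y] [DecidableEq Y]
  [DecidableEq ι] [DecidableEq κ] [DecidableEq θ] [DecidableEq κ'] [DecidableEq κ'']

theorem ChainEq.trans {A : Matrix ι κ R} {D : Matrix κ θ R} {B : Matrix ι' κ' R}
    {D' : Matrix κ' θ' R} {C : Matrix ι'' κ'' R} {D'' : Matrix κ'' θ'' R}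
    (h : ChainEq A D B D') (h' : ChainEq B D' C D'') : ChainEq A D C D'' := by
  obtain ⟨S₂, S₁, S₀, T₂, T₁, T₀, F, E, F', E', h1, h2, h3, h4, h5, h6⟩ := h
  obtain ⟨U₂, U₁, U₀, V₂, V₁, V₀, K, L, K', L', k1, k2, k3, k4, k5, k6⟩ := h'
  refine ⟨S₂ * U₂, S₁ * U₁, S₀ * U₀, V₂ * T₂, V₁ * T₁, V₀ * T₀, F + S₁ * K * T₂,
    E + S₀ * L * T₁, K' + V₁ * F' * U₂, L' + V₀ * E' * U₁, ?_, ?_, ?_, ?_, ?_, ?_⟩
  · rw [← Matrix.mul_assoc, h1, Matrix.mul_assoc, k1, Matrix.mul_assoc]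
  · rw [← Matrix.mul_assoc, h2, Matrix.mul_assoc, k2, Matrix.mul_assoc]
  · rw [← Matrix.mul_assoc, k3, Matrix.mul_assoc, h3, Matrix.mul_assoc]
  · rw [← Matrix.mul_assoc, k4, Matrix.mul_assoc, h4, Matrix.mul_assoc]
  · have e1 : S₁ * U₁ * (V₁ * T₁) = S₁ * (U₁ * V₁) * T₁ := by simp only [Matrix.mul_assoc]
    have e2 : U₁ * V₁ = 1 - (K * B + D' * L) := by rw [← k5]; abel
    have e3 : S₁ * (K * B) * T₁ = S₁ * K * T₂ * A := by
      rw [Matrix.mul_assoc, Matrix.mul_assoc, h3]; simp only [Matrix.mul_assoc]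
    have e4 : S₁ * (D' * L) * T₁ = D * (S₀ * L * T₁) := by
      rw [← Matrix.mul_assoc, ← h2]; simp only [Matrix.mul_assoc]
    rw [e1, e2, Matrix.mul_sub, Matrix.mul_one, Matrix.sub_mul, Matrix.mul_add, Matrix.add_mul, e3,
      e4, Matrix.add_mul, Matrix.mul_add]
    have e5 : (1 : Matrix κ κ R) - S₁ * T₁ = F * A + D * E := h5
    calc 1 - (S₁ * T₁ - (S₁ * K * T₂ * A + D * (S₀ * L * T₁)))
        = (1 - S₁ * T₁) + (S₁ * K * T₂ * A + D * (S₀ * L * T₁)) := by abel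
      _ = _ := by rw [e5]; abel
  · have e1 : V₁ * T₁ * (S₁ * U₁) = V₁ * (T₁ * S₁) * U₁ := by simp only [Matrix.mul_assoc]
    have e2 : T₁ * S₁ = 1 - (F' * B + D' * E') := by rw [← h6]; abel
    have e3 : V₁ * (F' * B) * U₁ = V₁ * F' * U₂ * C := by
      rw [Matrix.mul_assoc, Matrix.mul_assoc, k1]; simp only [Matrix.mul_assoc]
    have e4 : V₁ * (D' * E') * U₁ = D'' * (V₀ * E' * U₁) := by
      rw [← Matrix.mul_assoc, ← k4]; simp only [Matrix.mul_assoc]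
    rw [e1, e2, Matrix.mul_sub, Matrix.mul_one, Matrix.sub_mul, Matrix.mul_add, Matrix.add_mul, e3,
      e4, Matrix.add_mul, Matrix.mul_add]
    calc 1 - (V₁ * U₁ - (V₁ * F' * U₂ * C + D'' * (V₀ * E' * U₁)))
        = (1 - V₁ * U₁) + (V₁ * F' * U₂ * C + D'' * (V₀ * E' * U₁)) := by abel
      _ = _ := by rw [k6]; abel

theorem one_sub_fb : (1 : Matrix (κ ⊕ Y) (κ ⊕ Y) R) - fromBlocks 1 0 0 0 = fromBlocks 0 0 0 1 := by
  rw [sub_eq_iff_eq_add, fromBlocks_add, ← fromBlocks_one]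
  simp

/-- stably equivalent matrices -/
theorem chainEq_of_eqv {A : Matrix ι κ R} {B : Matrix (ι ⊕ Y) (κ ⊕ Y) R}
    (h : Pool.Agent.Q181.LR.Eqv A B) (D : Matrix κ θ R) (hAD : A * D = 0) :
    ∃ D' : Matrix (κ ⊕ Y) θ R, B * D' = 0 ∧ ChainEq A D B D' := by
  obtain ⟨P, P', rfl⟩ := h
  obtain ⟨p, q, hP, hP2, hpv⟩ : ∃ p q : Matrix (ι ⊕ Y) (ι ⊕ Y) R, p * q = 1 ∧ q * p = 1 ∧
      P.val = p := ⟨P.val, P⁻¹.val, P.mul_inv, P.inv_mul, rfl⟩
  obtain ⟨p', q', hP', hP'2, hpv'⟩ : ∃ p q : Matrix (κ ⊕ Y) (κ ⊕ Y) R, p * q = 1 ∧ q * p = 1 ∧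
      P'.val = p := ⟨P'.val, P'⁻¹.val, P'.mul_inv, P'.inv_mul, rfl⟩
  rw [hpv, hpv']
  obtain ⟨M, hM⟩ : ∃ M : Matrix (ι ⊕ Y) (κ ⊕ Y) R, M = fromBlocks A 0 0 1 := ⟨_, rfl⟩
  obtain ⟨J, hJ⟩ : ∃ J : Matrix (κ ⊕ Y) κ R, J = fromRows 1 0 := ⟨_, rfl⟩
  obtain ⟨J', hJ'⟩ : ∃ J' : Matrix κ (κ ⊕ Y) R, J' = fromCols 1 0 := ⟨_, rfl⟩
  obtain ⟨I, hI⟩ : ∃ J : Matrix (ι ⊕ Y) ι R, J = fromRows 1 0 := ⟨_, rfl⟩
  obtain ⟨I', hI'⟩ : ∃ J' : Matrix ι (ι ⊕ Y) R, J' = fromCols 1 0 := ⟨_, rfl⟩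
  obtain ⟨W, hW⟩ : ∃ W : Matrix (κ ⊕ Y) (ι ⊕ Y) R, W = fromBlocks 0 0 0 1 := ⟨_, rfl⟩
  have r1 : J' * J = 1 := by
    rw [hJ, hJ', fromCols_mul_fromRows]
    simp
  have r2 : M * J = I * A := by
    rw [hJ, hM, hI, fromBlocks_mul_fromRows, Matrix.fromRows_mul]
    simp
  have r3 : I' * M = A * J' := by
    rw [hI', hM, hJ', fromCols_mul_fromBlocks, Matrix.mul_fromCols]
    simp
  have r4 : 1 - J * J' = W * M := by
    have e : J * J' = fromBlocks 1 0 0 0 := by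
      rw [hJ, hJ', fromRows_mul_fromCols]
      simp
    rw [e, one_sub_fb, hM, hW, fromBlocks_multiply]
    simp
  rw [← hM]
  refine ⟨q' * (J * D), ?_, I' * q, J' * p', 1, p * I, q' * J, 1, 0, 0, q' * W * q, 0, ?_, ?_, ?_,
    ?_, ?_, ?_⟩
  · calc p * M * p' * (q' * (J * D)) = p * M * (p' * q') * (J * D) := by
          simp only [Matrix.mul_assoc]
      _ = p * (M * J) * D := by rw [hP', Matrix.mul_one]; simp only [Matrix.mul_assoc]
      _ = 0 := by rw [r2, Matrix.mul_assoc, Matrix.mul_assoc, hAD, Matrix.mul_zero, Matrix.mul_zero]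
  · calc A * (J' * p') = (A * J') * p' := by rw [Matrix.mul_assoc]
      _ = I' * (q * p) * M * p' := by rw [← r3, hP2, Matrix.mul_one]
      _ = I' * q * (p * M * p') := by simp only [Matrix.mul_assoc]
  · have e : J' * p' * (q' * (J * D)) = D := by
      calc J' * p' * (q' * (J * D)) = J' * (p' * q') * J * D := by simp only [Matrix.mul_assoc]
        _ = D := by rw [hP', Matrix.mul_one, r1, Matrix.one_mul]
    rw [e, Matrix.mul_one]
  · calc p * M * p' * (q' * J) = p * M * (p' * q') * J := by simp only [Matrix.mul_assoc]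
      _ = p * (M * J) := by rw [hP', Matrix.mul_one, Matrix.mul_assoc]
      _ = _ := by rw [r2, Matrix.mul_assoc]
  · rw [Matrix.mul_one, Matrix.mul_assoc]
  · have e : J' * p' * (q' * J) = 1 := by
      calc J' * p' * (q' * J) = J' * (p' * q') * J := by simp only [Matrix.mul_assoc]
        _ = 1 := by rw [hP', Matrix.mul_one, r1]
    rw [e]
    simp
  · have e : q' * J * (J' * p') = q' * (J * J') * p' := by simp only [Matrix.mul_assoc]
    have e2 : q' * W * q * (p * M * p') = q' * (W * M) * p' := by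
      calc q' * W * q * (p * M * p') = q' * W * (q * p) * M * p' := by
            simp only [Matrix.mul_assoc]
        _ = _ := by rw [hP2, Matrix.mul_one]; simp only [Matrix.mul_assoc]
    rw [e, e2, Matrix.mul_zero, add_zero, ← r4, Matrix.mul_sub, Matrix.sub_mul, Matrix.mul_one,
      hP'2]

/-- adding zero rows and zero columns -/
theorem chainEq_pad (A : Matrix ι κ R) (D : Matrix κ θ R) (hAD : A * D = 0) :
    (fromBlocks 0 0 A 0 : Matrix (κ ⊕ ι) (κ ⊕ ι) R) * (fromBlocks D 0 0 1 : Matrix (κ ⊕ ι) (θ ⊕ ι) R)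
      = 0 ∧
    ChainEq A D (fromBlocks 0 0 A 0 : Matrix (κ ⊕ ι) (κ ⊕ ι) R)
      (fromBlocks D 0 0 1 : Matrix (κ ⊕ ι) (θ ⊕ ι) R) := by
  refine ⟨?_, fromCols 0 1, fromCols 1 0, fromCols 1 0, fromRows 0 1, fromRows 1 0, fromRows 1 0,
    0, 0, 0, fromBlocks 0 0 0 1, ?_, ?_, ?_, ?_, ?_, ?_⟩
  · rw [fromBlocks_multiply]
    simp [hAD]
  · rw [fromCols_mul_fromBlocks, Matrix.mul_fromCols]
    simp
  · rw [fromCols_mul_fromBlocks, Matrix.mul_fromCols]
    simp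
  · rw [fromBlocks_mul_fromRows, Matrix.fromRows_mul]
    simp
  · rw [fromBlocks_mul_fromRows, Matrix.fromRows_mul]
    simp
  · rw [fromCols_mul_fromRows]
    simp
  · have e : (fromRows 1 0 : Matrix (κ ⊕ ι) κ R) * (fromCols 1 0 : Matrix κ (κ ⊕ ι) R)
        = fromBlocks 1 0 0 0 := by
      rw [fromRows_mul_fromCols]
      simp
    rw [e, one_sub_fb, fromBlocks_multiply]
    simp

end mat

end Pool.Agent.V8H47.ST
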