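import Pool.Agent.V8H47.ST.Hom
import Pool.Agent.Q181.TG.Fin
import Pool.Agent.Q181.TG.Chain
import Pool.Agent.R719.DD.FFd
import Pool.Agent.N510.CT.Model

set_option autoImplicit false

/-!
# Complexes with dominated and with thin boundary matrices
-/

namespace Pool.Agent.V8H47.ST

open Matrix Pool.Agent.Q181.TG Pool.Agent.Q151.TG
open Pool.Agent.Q181.LR (Eqv)
open Pool.Agent.R719.DD (dom_stab)

variable {G : Type} [Group G]

/-- the sum of the absolute values of the coefficients -/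
noncomputable def nrm (a : MonoidAlgebra ℤ G) : ℤ := ∑ h ∈ a.coeff.support, |a.coeff h|

/-- The square matrix `A` is dominated by its diagonal with the factor `c`: in each row and in each
column the sum of the absolute values of all the coefficients, except for the coefficient of `1` in the
diagonal entry, is at most `c` times this coefficient. -/
def DomBy {κ : Type} [Fintype κ] (c : ℝ) (A : Matrix κ κ (MonoidAlgebra ℤ G)) : Prop :=
  ∀ i, (∑ j, (nrm (A i j) : ℝ)) ≤ (1 + c) * ((A i i).coeff 1 : ℝ) ∧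
    (∑ j, (nrm (A j i) : ℝ)) ≤ (1 + c) * ((A i i).coeff 1 : ℝ)

/-- The coefficients of `A` are `0`, `1` and `-1`, and the matrix of their absolute values has norm at
most `c` on `ℓ²` (so `A` has norm at most `c` as well). -/
def Thin {ι κ : Type} [Fintype ι] [Fintype κ] (c : ℝ) (A : Matrix ι κ (MonoidAlgebra ℤ G)) : Prop :=
  (∀ i j g, (A i j).coeff g = 0 ∨ (A i j).coeff g = 1 ∨ (A i j).coeff g = -1) ∧
    TH57.Thr.NormLE (TH6.PF.pat A) c

theorem nrm_eq (a : MonoidAlgebra ℤ G) : (nrm a : ℝ) = (Pool.Agent.Y35.KC.TTm.l1 a : ℝ) := by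
  unfold nrm Pool.Agent.Y35.KC.TTm.l1
  push_cast
  refine Finset.sum_congr rfl fun h _ => ?_
  rw [Nat.cast_natAbs]
  push_cast
  rfl

theorem domBy_of {κ : Type} [Fintype κ] (c : ℝ) (hc : 0 < c)
    (A : Matrix κ κ (MonoidAlgebra ℤ G)) (h1 : Pool.Agent.R719.DD.DomC c A)
    (h2 : Pool.Agent.R719.DD.DomC c Aᵀ) : DomBy c A := by
  have key : ∀ B : Matrix κ κ (MonoidAlgebra ℤ G), Pool.Agent.R719.DD.DomC c B → ∀ i,
      (∑ j, (Pool.Agent.Y35.KC.TTm.l1 (B i j) : ℝ)) ≤ (1 + c) * ((B i i).coeff 1 : ℝ) := by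
    intro B hB i
    have h := hB i
    have h3 : |((B i i).coeff 1 : ℝ)| ≤ Pool.Agent.Y35.KC.TTm.l1 (B i i) := by
      exact_mod_cast Pool.Agent.R719.DD.coeff_le_l1 (B i i) 1
    have h4 : (Pool.Agent.Y35.KC.TTm.l1 (B i i) : ℝ)
        ≤ ∑ j, (Pool.Agent.Y35.KC.TTm.l1 (B i j) : ℝ) :=
      Finset.single_le_sum (f := fun j => (Pool.Agent.Y35.KC.TTm.l1 (B i j) : ℝ))
        (fun j _ => Nat.cast_nonneg _) (Finset.mem_univ i)
    have h5 : (0 : ℝ) ≤ c * ((B i i).coeff 1 : ℝ) := by linarith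
    have h0 : (0 : ℝ) ≤ ((B i i).coeff 1 : ℝ) := by
      by_contra h0
      push Not at h0
      nlinarith
    rw [abs_of_nonneg h0] at h
    linarith
  intro i
  have e1 := key A h1 i
  have e2 := key Aᵀ h2 i
  simp only [nrm_eq]
  exact ⟨e1, e2⟩

/-- every square matrix is stably equivalent to a dominated one, for every factor larger than one -/
theorem dom_model {κ : Type} [Fintype κ] [DecidableEq κ] (A : Matrix κ κ (MonoidAlgebra ℤ G))
    (c : ℝ) (hc : 1 < c) : ∃ (N : ℕ) (B : Matrix (κ ⊕ κ × Fin N) (κ ⊕ κ × Fin N)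
      (MonoidAlgebra ℤ G)), Eqv A B ∧ DomBy c B := by
  obtain ⟨N₁, h1⟩ := dom_stab c hc A
  obtain ⟨N₂, h2⟩ := dom_stab c hc (TH6.LF.adj A)
  obtain ⟨N, hN⟩ : ∃ N, N = max N₁ N₂ := ⟨_, rfl⟩
  let U := Pool.Agent.R719.DD.pm G κ N
  let V : (Matrix (κ ⊕ κ × Fin N) (κ ⊕ κ × Fin N) (MonoidAlgebra ℤ G))ˣ :=
    ⟨TH6.LF.adj U.val, TH6.LF.adj U⁻¹.val, by rw [← TH6.LF.adj_mul, U.inv_mul, TH6.LF.adj_one],
      by rw [← TH6.LF.adj_mul, U.mul_inv, TH6.LF.adj_one]⟩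
  set B := U.val * fromBlocks A 0 0 1 * V.val with hB
  have h3 : Pool.Agent.R719.DD.DomC c B := by
    have := h1 N (by rw [hN]; exact le_max_left _ _)
    rw [← Pool.Agent.R719.DD.pm_mul] at this
    exact this
  have h4 : Pool.Agent.R719.DD.DomC c Bᵀ := by
    have h5 := h2 N (by rw [hN]; exact le_max_right _ _)
    have h6 : TH6.LF.adj B = (Pool.Agent.R719.DD.pm G κ N).val * fromBlocks (TH6.LF.adj A) 0 0 1 *
        TH6.LF.adj (Pool.Agent.R719.DD.pm G κ N).val := by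
      change TH6.LF.adj (U.val * fromBlocks A 0 0 1 * TH6.LF.adj U.val) = _
      rw [TH6.LF.adj_mul, TH6.LF.adj_mul, TH6.LF.adj_adj, TH6.LF.adj_fromBlocks, TH6.LF.adj_zero,
        TH6.LF.adj_zero, TH6.LF.adj_one, Matrix.mul_assoc]
    rw [← Pool.Agent.R719.DD.pm_mul, ← h6] at h5
    intro i
    have h7 := h5 i
    have h8 : ∀ j, (Pool.Agent.Y35.KC.TTm.l1 (Bᵀ i j) : ℝ)
        = (Pool.Agent.Y35.KC.TTm.l1 (TH6.LF.adj B i j) : ℝ) := by
      intro j
      rw [TH6.LF.adj_apply, Pool.Agent.R719.DD.l1_bar]; rfl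
    have h9 : ((Bᵀ i i).coeff 1 : ℝ) = ((TH6.LF.adj B i i).coeff 1 : ℝ) := by
      rw [TH6.LF.adj_apply, TH6.LF.coeff_bar, inv_one]; rfl
    rw [h9, Finset.sum_congr rfl fun j _ => h8 j]
    exact h7
  exact ⟨N, B, ⟨U, V, hB⟩, domBy_of c (by linarith) B h3 h4⟩

/-- every matrix is stably equivalent to a thin one, for every norm larger than `3 / √2` -/
theorem thin_eqv {ι κ : Type} [Fintype ι] [Fintype κ] [DecidableEq ι] [DecidableEq κ]
    (A : Matrix ι κ (MonoidAlgebra ℤ G)) (c : ℝ) (hc : 9 / 2 < c ^ 2) :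
    ∃ (q : Type) (_ : Fintype q) (_ : DecidableEq q) (B : Matrix (ι ⊕ q) (κ ⊕ q)
      (MonoidAlgebra ℤ G)), Eqv A B ∧ Thin c B := by
  obtain ⟨q, i1, i2, X, Y, Z, W, hZ, hZW, hWZ, hB, hcard, hS, hN⟩ :=
    Pool.Agent.N510.CT.thin_model Pool.Agent.N510.CT.gens_int A c hc
  refine ⟨q, i1, i2, fromBlocks 0 X Y Z, Pool.Agent.Q181.LR.eqv_dil A X Y Z W hWZ hZW hB.symm,
    fun i j g => ?_, hN⟩
  by_cases h : ((fromBlocks 0 X Y Z : Matrix (ι ⊕ q) (κ ⊕ q) (MonoidAlgebra ℤ G)) i j).coeff g = 0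
  · exact Or.inl h
  · exact Or.inr (hS i j g h)

end Pool.Agent.V8H47.ST
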